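import Mathlib
import Pool.Agent.R594.Lp.Powers
import Pool.Agent.R594.Lp.Normal
import Pool.Agent.Results.MP_f6eb07_gt.PowersMA

/-!
# Function spaces over spaces with hereditarily Lindelöf powers

If all finite powers of `X` are hereditarily Lindelöf, then all finite powers of `C_p(X)` are
hereditarily separable (Velichko, Zenor). Under Martin's axiom for `ℵ₁` dense sets, closed
separability of `C_p(X)` implies that all finite powers of `X` are hereditarily Lindelöf.
-/

set_option autoImplicit false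

open Set Topology Cardinal

namespace Pool.Agent.U19.LPM

open Pool.Agent.R594.Lp Pool.Agent.Results.MP_f6eb07_gt.PowersMA

universe u

/-- the basic open sets of the power -/
def Box {X : Type u} [TopologicalSpace X] {k n : ℕ} (c : Fin n → Fin k × ℚ × ℚ)
    (F : Fin k → Cp X) : Set (Fin n → X) :=
  {x | ∀ i, (F (c i).1).1 (x i) ∈ Ioo ((c i).2.1 : ℝ) ((c i).2.2 : ℝ)}

theorem isOpen_box {X : Type u} [TopologicalSpace X] {k n : ℕ} (c : Fin n → Fin k × ℚ × ℚ)
    (F : Fin k → Cp X) : IsOpen (Box c F) := by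
  have h : Box c F = ⋂ i, {x : Fin n → X | (F (c i).1).1 (x i) ∈
      Ioo ((c i).2.1 : ℝ) ((c i).2.2 : ℝ)} := by
    ext x; simp [Box]
  rw [h]
  exact isOpen_iInter_of_finite fun i =>
    isOpen_Ioo.preimage ((F (c i).1).2.comp (continuous_apply i))

/-- every neighbourhood in a power of `C_p(X)` contains a rational one -/
theorem exists_box {X : Type u} [TopologicalSpace X] {k : ℕ} {O : Set (Fin k → Cp X)}
    (hO : IsOpen O) {F : Fin k → Cp X} (hF : F ∈ O) :
    ∃ (n : ℕ) (c : Fin n → Fin k × ℚ × ℚ) (x : Fin n → X), x ∈ Box c F ∧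
      ∀ G : Fin k → Cp X, x ∈ Box c G → G ∈ O := by
  classical
  have hind : IsInducing (Pi.map (fun _ : Fin k => (Subtype.val : Cp X → X → ℝ))) :=
    IsInducing.piMap fun _ => IsInducing.subtypeVal
  obtain ⟨O₁, hO₁, rfl⟩ := hind.isOpen_iff.1 hO
  obtain ⟨w, hw, hwO⟩ := isOpen_pi_iff'.1 hO₁ _ hF
  choose I v hv hI using fun a => isOpen_pi_iff.1 (hw a).1 _ (hw a).2
  let ι := Σ a : Fin k, (I a : Finset X)
  have hq : ∀ p : ι, ∃ q : ℚ × ℚ, (F p.1).1 p.2.1 ∈ Ioo (q.1 : ℝ) (q.2 : ℝ) ∧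
      Ioo (q.1 : ℝ) (q.2 : ℝ) ⊆ v p.1 p.2.1 := by
    rintro ⟨a, x, hx⟩
    obtain ⟨ho, hm⟩ := hv a x hx
    obtain ⟨ε, hε, hball⟩ := Metric.isOpen_iff.1 ho _ hm
    have hm' : (Pi.map (fun _ : Fin k => (Subtype.val : Cp X → X → ℝ)) F a x) = (F a).1 x := rfl
    rw [hm'] at hball
    obtain ⟨q, hq1, hq2⟩ := exists_rat_btwn (show (F a).1 x - ε < (F a).1 x by linarith)
    obtain ⟨q', hq1', hq2'⟩ := exists_rat_btwn (show (F a).1 x < (F a).1 x + ε by linarith)
    refine ⟨(q, q'), ⟨hq2, hq1'⟩, ?_⟩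
    intro z hz
    apply hball
    rw [Metric.mem_ball, Real.dist_eq, abs_lt]
    constructor <;> linarith [hz.1, hz.2]
  choose q hq1 hq2 using hq
  let e : ι ≃ Fin (Fintype.card ι) := Fintype.equivFin ι
  refine ⟨Fintype.card ι, fun i => ((e.symm i).1, q (e.symm i)), fun i => (e.symm i).2.1,
    fun i => hq1 (e.symm i), fun G hG => ?_⟩
  show Pi.map (fun _ : Fin k => (Subtype.val : Cp X → X → ℝ)) G ∈ O₁
  apply hwO
  intro a _
  apply hI a
  intro x hx
  have key : ∀ p : ι, (G p.1).1 p.2.1 ∈ Ioo ((q p).1 : ℝ) ((q p).2 : ℝ) := by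
    intro p
    obtain ⟨j, rfl⟩ := e.symm.surjective p
    exact hG j
  exact hq2 ⟨a, x, hx⟩ (key ⟨a, x, hx⟩)

/-- Velichko, Zenor: if all finite powers of `X` are hereditarily Lindelöf, then all finite powers
of `C_p(X)` are hereditarily separable. -/
theorem hsep_pow {X : Type u} [TopologicalSpace X]
    (hX : ∀ n : ℕ, HereditarilyLindelof (Fin n → X)) (k : ℕ) :
    HereditarilySeparable (Fin k → Cp X) := by
  classical
  intro A
  have h1 : ∀ p : (Σ n : ℕ, Fin n → Fin k × ℚ × ℚ), ∃ B : Set (Fin k → Cp X), B ⊆ A ∧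
      B.Countable ∧ ∀ F ∈ A, ∀ x ∈ Box p.2 F, ∃ G ∈ B, x ∈ Box p.2 G := by
    rintro ⟨n, c⟩
    obtain ⟨𝒞, h𝒞, hc, hun⟩ := hX n (Box c '' A) (by rintro _ ⟨F, _, rfl⟩; exact isOpen_box c F)
    haveI : Nonempty (Cp X) := ⟨⟨fun _ => 0, continuous_const⟩⟩
    have h𝒞' : ∀ C, C ∈ 𝒞 → ∃ F, F ∈ A ∧ Box c F = C := fun C hC => h𝒞 hC
    choose! g hgA hg using h𝒞'
    refine ⟨g '' 𝒞, ?_, hc.image _, ?_⟩
    · rintro _ ⟨C, hC, rfl⟩
      exact hgA C hC
    · intro F hF x hx
      have h2 : x ∈ ⋃₀ 𝒞 := by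
        rw [hun]
        exact ⟨Box c F, ⟨F, hF, rfl⟩, hx⟩
      obtain ⟨C, hC, hxC⟩ := h2
      refine ⟨g C, ⟨C, hC, rfl⟩, ?_⟩
      show x ∈ Box c (g C)
      rw [hg C hC]
      exact hxC
  choose B hBA hB hBx using h1
  refine ⟨⋃ p, B p, iUnion_subset hBA, countable_iUnion hB, ?_⟩
  intro F hF
  rw [mem_closure_iff]
  intro O hO hFO
  obtain ⟨n, c, x, hx, hxG⟩ := exists_box hO hFO
  obtain ⟨G, hG, hG'⟩ := hBx ⟨n, c⟩ F hF x hx
  exact ⟨G, hxG G hG', mem_iUnion.2 ⟨⟨n, c⟩, hG⟩⟩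

theorem clSep_of_hsep {Y : Type u} [TopologicalSpace Y] (h : HereditarilySeparable Y) :
    ClSep Y := by
  intro S _
  obtain ⟨B, hBS, hB, hSB⟩ := h S
  have hB' : (Subtype.val ⁻¹' B : Set S).Countable := hB.preimage Subtype.val_injective
  refine ⟨⟨Subtype.val ⁻¹' B, hB', ?_⟩⟩
  intro s
  rw [mem_closure_iff]
  intro O hO hsO
  obtain ⟨O', hO', rfl⟩ := isOpen_induced_iff.1 hO
  obtain ⟨b, hbO, hb⟩ := mem_closure_iff.1 (hSB s.2) O' hO' hsO
  exact ⟨⟨b, hBS hb⟩, hbO, hb⟩

/-- `L_p(X)` and hereditarily Lindelöf powers -/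
theorem perfNormal_of_hlin {X : Type u} [TopologicalSpace X]
    (hX : ∀ n : ℕ, HereditarilyLindelof (Fin n → X)) :
    NormalSpace (LpS X) ∧ ∀ s : Set (LpS X), IsClosed s → IsGδ s :=
  perfNormal_of_pow fun k => clSep_of_hsep (hsep_pow hX k)

section MA

variable {X : Type u} [TopologicalSpace X] [T35Space X]

/-- closed separability gives countable spread of all finite powers -/
theorem spread_pow' (h : ClSep (Cp X)) (n : ℕ) (D : Set (Fin n → X)) (hD : DiscreteTopology D) :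
    D.Countable := by
  have h1 : ∀ d : D, ∃ O : Set (Fin n → X), IsOpen O ∧ d.1 ∈ O ∧ ∀ e : D, e.1 ∈ O → e = d :=
    fun d => exists_isolating hD d
  choose O hO hdO hOe using h1
  have h2 : Countable D := powers_spread h n (fun d : D => d.1) O hO hdO
    (fun a b hab hb => hab (hOe a b hb).symm)
  exact Set.countable_coe_iff.1 h2

theorem spread_fintype (h : ClSep (Cp X)) (κ : Type) [Fintype κ] (D : Set (κ → X))
    (hD : DiscreteTopology D) : D.Countable := by
  have h1 : ∀ d : D, ∃ O : Set (κ → X), IsOpen O ∧ d.1 ∈ O ∧ ∀ e : D, e.1 ∈ O → e = d :=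
    fun d => exists_isolating hD d
  choose O hO hdO hOe using h1
  let e := Fintype.equivFin κ
  have hcont : Continuous fun w : Fin (Fintype.card κ) → X => fun i : κ => w (e i) :=
    continuous_pi fun i => continuous_apply (e i)
  have h2 : Countable D := no_unc_discrete (spread_pow' h (Fintype.card κ))
    (fun d : D => fun i => d.1 (e.symm i))
    (fun d => (fun w : Fin (Fintype.card κ) → X => fun i : κ => w (e i)) ⁻¹' O d)
    (fun d => (hO d).preimage hcont)
    (fun d => by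
      show (fun i : κ => d.1 (e.symm (e i))) ∈ O d
      simpa using hdO d)
    (fun d d' hd => hOe d d' (by
      have h3 : (fun i : κ => d'.1 (e.symm (e i))) ∈ O d := hd
      simpa using h3))
  exact Set.countable_coe_iff.1 h2

/-- Under Martin's axiom for `ℵ₁` dense sets, closed separability of `C_p(X)` gives that all
finite powers of `X` are hereditarily Lindelöf and hereditarily separable. -/
theorem hlin_pow (hMA : MartinAxiomAlephOne) (h : ClSep (Cp X)) (n : ℕ) :
    HereditarilyLindelof (Fin n → X) ∧ HereditarilySeparable (Fin n → X) := by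
  have h2 : ∀ D : Set {f : (Fin n → X) → ℝ // Continuous f}, DiscreteTopology D →
      D.Countable := fun D hD => spread_Cp (spread_pow_pow (spread_fintype h)) D hD
  exact ⟨hlin hMA _ h2, hsep hMA _ h2⟩

end MA

end Pool.Agent.U19.LPM
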