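import Pool.Agent.U19.LPM.VZ
import Pool.Agent.R594.Lp.Main

/-!
# Special cases in ZFC
-/

set_option autoImplicit false

open Set Topology Cardinal TopologicalSpace

namespace Pool.Agent.U19.LPM

open Pool.Agent.R594.Lp Pool.Agent.Results.MP_f6eb07_gt.PowersMA

universe u

/-- a Lindelöf space whose closed sets are `G_δ` is hereditarily Lindelöf -/
theorem hlin_of_perfect {Z : Type u} [TopologicalSpace Z] [LindelofSpace Z]
    (hG : ∀ s : Set Z, IsClosed s → IsGδ s) : HereditarilyLindelof Z := by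
  intro 𝒪 h𝒪
  have h1 : IsClosed (⋃₀ 𝒪)ᶜ := (isOpen_sUnion h𝒪).isClosed_compl
  obtain ⟨T, hT, hTc, hTe⟩ := hG _ h1
  have h2 : IsLindelof (⋃₀ 𝒪) := by
    have h3 : ⋃₀ 𝒪 = ⋃ t ∈ T, tᶜ := by
      rw [← compl_compl (⋃₀ 𝒪), hTe, compl_sInter, sUnion_image]
    rw [h3]
    exact hTc.isLindelof_biUnion fun t ht => (hT t ht).isClosed_compl.isLindelof
  obtain ⟨r, hrc, hr⟩ := h2.elim_countable_subcover (fun o : 𝒪 => o.1) (fun o => h𝒪 _ o.2)
    (by rw [sUnion_eq_iUnion])
  refine ⟨Subtype.val '' r, ?_, hrc.image _, ?_⟩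
  · rintro _ ⟨o, _, rfl⟩
    exact o.2
  · apply Subset.antisymm
    · apply sUnion_subset_sUnion
      rintro _ ⟨o, _, rfl⟩
      exact o.2
    · intro x hx
      obtain ⟨o, ho, hxo⟩ := mem_iUnion₂.1 (hr hx)
      exact ⟨o.1, ⟨o, ho, rfl⟩, hxo⟩

variable {X : Type u} [TopologicalSpace X] [T35Space X]

/-- the case of Lindelöf finite powers -/
theorem hlin_pow_of_lindelof (h : ClSep (Cp X)) (hL : ∀ n : ℕ, LindelofSpace (Fin n → X))
    (n : ℕ) : HereditarilyLindelof (Fin n → X) := by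
  have := hL n
  exact hlin_of_perfect (powers_perfNormal h n).2

theorem basis_of_zeroDimensional {Y : Type u} [TopologicalSpace Y] (hz : ZeroDimensional Y) :
    IsTopologicalBasis {s : Set Y | IsClopen s} := by
  refine isTopologicalBasis_of_isOpen_of_nhds (fun s hs => hs.isOpen) ?_
  intro x U hx hU
  obtain ⟨C, hC, hxC, hCU⟩ := hz x U hU hx
  exact ⟨C, hC, hxC, hCU⟩

/-- the case of cardinality less than the continuum -/
theorem perfNormal_of_card (h : ClSep (Cp X)) (hX : #X < 𝔠) :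
    NormalSpace (LpS X) ∧ ∀ s : Set (LpS X), IsClosed s → IsGδ s :=
  perfNormal_of_pow fun k => clSep_pow
    (sz_of_clopen_base (basis_of_zeroDimensional (zeroDimensional_of_card hX)) h) h k

end Pool.Agent.U19.LPM
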