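import Mathlib
import Pool.Agent.Helper47.LP.Dep
import Pool.Agent.U19.LPM.VZ
import Pool.Agent.U19.LPM.Zfc

/-!
# Perfect normality of `L_p(X)` implies that all finite powers of `X` have countable spread
-/

set_option autoImplicit false

open Set Topology Cardinal

namespace Pool.Agent.U19.LPM

open Pool.Agent.Helper47.LP (Lp depends)
open Pool.Agent.Results.MP_f6eb07_gt.PowersMA

section

variable {X : Type} [TopologicalSpace X]

/-- The functional `∑ 2^i δ_{y i}`. -/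
noncomputable def Phi {m : ℕ} (y : Fin m → X) : Lp X :=
  ⟨fun f => ∑ i : Fin m, (2 : ℝ) ^ (i : ℕ) * f.1 (y i), by
    have h : (fun f : {f : X → ℝ // Continuous f} => ∑ i : Fin m, (2 : ℝ) ^ (i : ℕ) * f.1 (y i)) =
        ∑ i : Fin m, (2 : ℝ) ^ (i : ℕ) • (fun f : {f : X → ℝ // Continuous f} => f.1 (y i)) := by
      funext f
      simp [Finset.sum_apply]
    rw [h]
    exact Submodule.sum_mem _ fun i _ => Submodule.smul_mem _ _ (Submodule.subset_span ⟨y i, rfl⟩)⟩

theorem Phi_apply {m : ℕ} (y : Fin m → X) (f : {f : X → ℝ // Continuous f}) :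
    (Phi y).1 f = ∑ i : Fin m, (2 : ℝ) ^ (i : ℕ) * f.1 (y i) := rfl

theorem Phi_cont {m : ℕ} : Continuous (Phi : (Fin m → X) → Lp X) := by
  refine Continuous.subtype_mk (continuous_pi fun f => ?_) _
  exact continuous_finsetSum _ fun i _ => continuous_const.mul (f.2.comp (continuous_apply i))

/-- subset sums of powers of two -/
theorem sum_two_pow_inj {m : ℕ} {S T : Finset (Fin m)}
    (h : ∑ i ∈ S, 2 ^ (i : ℕ) = ∑ i ∈ T, 2 ^ (i : ℕ)) : S = T := by
  have h1 : S.map Fin.valEmbedding = T.map Fin.valEmbedding := by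
    apply Finset.geomSum_injective (n := 2) le_rfl
    simpa [Finset.sum_map] using h
  exact Finset.map_injective _ h1

/-- the map `Phi` is an embedding -/
theorem exists_nhd [T35Space X] {m : ℕ} (y : Fin m → X) {O : Set (Fin m → X)} (hO : IsOpen O)
    (hy : y ∈ O) : ∃ N : Set (Lp X), IsOpen N ∧ Phi y ∈ N ∧ ∀ z : Fin m → X, Phi z ∈ N → z ∈ O := by
  classical
  obtain ⟨u, hu, huO⟩ := isOpen_pi_iff'.1 hO y hy
  let P : Finset X := Finset.univ.image y
  obtain ⟨U, hU, hUd⟩ := (P : Set X).toFinite.t2_separation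
  let V : X → Set X := fun p => U p ∩ ⋂ i, (if y i = p then u i else univ)
  have hVo : ∀ p, IsOpen (V p) := by
    intro p
    refine (hU p).2.inter (isOpen_iInter_of_finite fun i => ?_)
    split_ifs
    · exact (hu i).1
    · exact isOpen_univ
  have hVp : ∀ p, p ∈ V p := by
    intro p
    refine ⟨(hU p).1, mem_iInter.2 fun i => ?_⟩
    split_ifs with h
    · rw [← h]; exact (hu i).2
    · trivial
  have hVu : ∀ i, V (y i) ⊆ u i := by
    intro i x hx
    have h1 := mem_iInter.1 hx.2 i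
    rw [if_pos rfl] at h1
    exact h1
  choose f hf hf1 hf0 hf1' hfV using fun p => exists_bump p (V p) (hVo p) (hVp p)
  let S : X → Finset (Fin m) := fun p => Finset.univ.filter fun k => y k = p
  let N : Set (Lp X) := ⋂ i : Fin m,
    {ψ | (∑ k ∈ S (y i), (2 : ℝ) ^ (k : ℕ)) - 1 < ψ.1 ⟨f (y i), hf (y i)⟩}
  refine ⟨N, ?_, ?_, ?_⟩
  · refine isOpen_iInter_of_finite fun i => isOpen_lt continuous_const ?_
    exact (continuous_apply _).comp continuous_subtype_val
  · refine mem_iInter.2 fun i => ?_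
    show (∑ k ∈ S (y i), (2 : ℝ) ^ (k : ℕ)) - 1 < (Phi y).1 ⟨f (y i), hf (y i)⟩
    rw [Phi_apply]
    have h1 : ∑ k ∈ S (y i), (2 : ℝ) ^ (k : ℕ) ≤ ∑ k : Fin m, (2 : ℝ) ^ (k : ℕ) * f (y i) (y k) := by
      have h2 : ∑ k ∈ S (y i), (2 : ℝ) ^ (k : ℕ) =
          ∑ k ∈ S (y i), (2 : ℝ) ^ (k : ℕ) * f (y i) (y k) := by
        refine Finset.sum_congr rfl fun k hk => ?_
        rw [(Finset.mem_filter.1 hk).2, hf1, mul_one]
      rw [h2]
      exact Finset.sum_le_sum_of_subset_of_nonneg (Finset.subset_univ _) fun k _ _ =>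
        mul_nonneg (by positivity) (hf0 _ _)
    linarith
  · intro z hz
    let T : X → Finset (Fin m) := fun p => Finset.univ.filter fun k => z k ∈ V p
    have h1 : ∀ p ∈ P, ∑ k ∈ S p, 2 ^ (k : ℕ) ≤ ∑ k ∈ T p, 2 ^ (k : ℕ) := by
      intro p hp
      obtain ⟨i, -, rfl⟩ := Finset.mem_image.1 hp
      have h2 : (∑ k ∈ S (y i), (2 : ℝ) ^ (k : ℕ)) - 1 < (Phi z).1 ⟨f (y i), hf (y i)⟩ :=
        mem_iInter.1 hz i
      rw [Phi_apply] at h2
      have h3 : ∑ k : Fin m, (2 : ℝ) ^ (k : ℕ) * f (y i) (z k) ≤ ∑ k ∈ T (y i), (2 : ℝ) ^ (k : ℕ) := by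
        rw [← Finset.sum_filter_add_sum_filter_not Finset.univ (fun k => z k ∈ V (y i))]
        have h4 : ∑ k ∈ Finset.univ.filter (fun k => ¬ z k ∈ V (y i)),
            (2 : ℝ) ^ (k : ℕ) * f (y i) (z k) = 0 := by
          refine Finset.sum_eq_zero fun k hk => ?_
          have h5 : ¬ z k ∈ V (y i) := (Finset.mem_filter.1 hk).2
          have h6 : f (y i) (z k) = 0 := by
            apply le_antisymm _ (hf0 _ _)
            by_contra h7
            exact h5 (hfV _ _ (not_le.1 h7))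
          rw [h6, mul_zero]
        rw [h4, add_zero]
        refine Finset.sum_le_sum fun k _ => ?_
        exact mul_le_of_le_one_right (by positivity) (hf1' _ _)
      have h4 : ((∑ k ∈ S (y i), 2 ^ (k : ℕ) : ℕ) : ℝ) < ((∑ k ∈ T (y i), 2 ^ (k : ℕ) : ℕ) : ℝ) + 1 := by
        push_cast
        linarith
      have h5 : (∑ k ∈ S (y i), 2 ^ (k : ℕ)) < (∑ k ∈ T (y i), 2 ^ (k : ℕ)) + 1 := by
        exact_mod_cast h4
      omega
    have h2 : ∑ p ∈ P, ∑ k ∈ S p, 2 ^ (k : ℕ) = ∑ k : Fin m, 2 ^ (k : ℕ) := by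
      have h3 : ∀ k ∈ (Finset.univ : Finset (Fin m)), y k ∈ P := fun k _ =>
        Finset.mem_image_of_mem _ (Finset.mem_univ k)
      exact Finset.sum_fiberwise_of_maps_to h3 _
    have hdisj : (P : Set X).PairwiseDisjoint T := by
      intro p hp q hq hpq
      rw [Function.onFun, Finset.disjoint_left]
      intro k hk hk'
      have h3 : z k ∈ V p := (Finset.mem_filter.1 hk).2
      have h4 : z k ∈ V q := (Finset.mem_filter.1 hk').2
      exact (hUd hp hq hpq).le_bot ⟨h3.1, h4.1⟩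
    have h3 : ∑ p ∈ P, ∑ k ∈ T p, 2 ^ (k : ℕ) ≤ ∑ k : Fin m, 2 ^ (k : ℕ) := by
      rw [← Finset.sum_biUnion hdisj]
      exact Finset.sum_le_sum_of_subset (Finset.subset_univ _)
    have h4 : ∀ p ∈ P, ∑ k ∈ S p, 2 ^ (k : ℕ) = ∑ k ∈ T p, 2 ^ (k : ℕ) := by
      refine (Finset.sum_eq_sum_iff_of_le h1).1 ?_
      exact le_antisymm (Finset.sum_le_sum h1) (h3.trans h2.ge)
    refine huO fun i _ => ?_
    have h5 : S (y i) = T (y i) := sum_two_pow_inj (h4 (y i)
      (Finset.mem_image_of_mem _ (Finset.mem_univ i)))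
    have h6 : i ∈ S (y i) := Finset.mem_filter.2 ⟨Finset.mem_univ i, rfl⟩
    rw [h5] at h6
    exact hVu i (Finset.mem_filter.1 h6).2

/-- If `L_p(X)` is perfectly normal, then all finite powers of `X` have countable spread. -/
theorem spread_of_lp [T35Space X] (hL : PerfectlyNormalSpace (Lp X)) (n : ℕ)
    (D : Set (Fin n → X)) (hD : DiscreteTopology D) : D.Countable := by
  classical
  by_contra hcon
  have hunc : ¬ Countable D := fun h => hcon (Set.countable_coe_iff.1 h)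
  have hinf : Infinite D := by
    by_contra h
    rw [not_infinite_iff_finite] at h
    exact hunc inferInstance
  have hcard : #(D ⊕ D) = #D := by
    rw [Cardinal.mk_sum, Cardinal.lift_id]
    exact Cardinal.add_eq_self (Cardinal.aleph0_le_mk D)
  obtain ⟨e⟩ := Cardinal.eq.1 hcard
  choose O hO hdO hOe using fun d : D => exists_isolating hD d
  let a : D → D := fun ξ => e (Sum.inl ξ)
  let b : D → D := fun ξ => e (Sum.inr ξ)
  have ha : Function.Injective a := fun ξ η h => Sum.inl_injective (e.injective h)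
  have hb : Function.Injective b := fun ξ η h => Sum.inr_injective (e.injective h)
  let Y : D → D → Fin (n + n) → X := fun ξ η => Fin.append (a ξ).1 (b η).1
  let Q : D → Set (Fin (n + n) → X) := fun ξ =>
    (fun z i => z (Fin.castAdd n i)) ⁻¹' O (a ξ) ∩ (fun z i => z (Fin.natAdd n i)) ⁻¹' O (b ξ)
  have hQ : ∀ ξ, IsOpen (Q ξ) := fun ξ =>
    ((hO _).preimage (continuous_pi fun i => continuous_apply _)).inter
      ((hO _).preimage (continuous_pi fun i => continuous_apply _))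
  have hYl : ∀ ξ η, (fun i => Y ξ η (Fin.castAdd n i)) = (a ξ).1 := by
    intro ξ η
    funext i
    exact Fin.append_left _ _ i
  have hYr : ∀ ξ η, (fun i => Y ξ η (Fin.natAdd n i)) = (b η).1 := by
    intro ξ η
    funext i
    exact Fin.append_right _ _ i
  have hYQ : ∀ ζ η ξ, Y ζ η ∈ Q ξ → ζ = ξ ∧ η = ξ := by
    intro ζ η ξ h
    have h1 : (fun i => Y ζ η (Fin.castAdd n i)) ∈ O (a ξ) := h.1
    have h2 : (fun i => Y ζ η (Fin.natAdd n i)) ∈ O (b ξ) := h.2
    rw [hYl] at h1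
    rw [hYr] at h2
    exact ⟨ha (hOe _ _ h1), hb (hOe _ _ h2)⟩
  have hYd : ∀ ξ, Y ξ ξ ∈ Q ξ := by
    intro ξ
    constructor
    · show (fun i => Y ξ ξ (Fin.castAdd n i)) ∈ O (a ξ)
      rw [hYl]; exact hdO _
    · show (fun i => Y ξ ξ (Fin.natAdd n i)) ∈ O (b ξ)
      rw [hYr]; exact hdO _
  choose N hN hYN hNQ using fun ξ => exists_nhd (Y ξ ξ) (hQ ξ) (hYd ξ)
  let F : Set (Lp X) := closure {ψ | ∃ ζ η : D, ζ ≠ η ∧ ψ = Phi (Y ζ η)}
  have hF : ∀ ξ, Phi (Y ξ ξ) ∉ F := by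
    intro ξ h
    obtain ⟨ψ, hψN, ζ, η, hne, rfl⟩ := mem_closure_iff.1 h (N ξ) (hN ξ) (hYN ξ)
    obtain ⟨h1, h2⟩ := hYQ _ _ _ (hNQ ξ _ hψN)
    exact hne (h1.trans h2.symm)
  obtain ⟨W, hW, hdep⟩ := depends X hL F isClosed_closure
  choose G ε hGW hε hG using fun ξ => hdep (Phi (Y ξ ξ)) (hF ξ)
  let A : D → {f : X → ℝ // Continuous f} → ℝ := fun ξ w =>
    ∑ i : Fin n, (2 : ℝ) ^ (n + (i : ℕ)) * w.1 ((b ξ).1 i)
  have hdiff : ∀ ξ η w, (Phi (Y ξ η)).1 w - (Phi (Y ξ ξ)).1 w = A η w - A ξ w := by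
    intro ξ η w
    rw [Phi_apply, Phi_apply, Fin.sum_univ_add, Fin.sum_univ_add]
    simp only [Y, Fin.append_left, Fin.append_right, Fin.val_natAdd, A]
    ring
  choose k hk using fun ξ => exists_nat_one_div_lt (hε ξ)
  have hq : ∀ ξ (w : {f : X → ℝ // Continuous f}), ∃ q : ℚ,
      |A ξ w - q| < 1 / (2 * ((k ξ : ℝ) + 1)) := by
    intro ξ w
    have h1 : 0 < 1 / (2 * ((k ξ : ℝ) + 1)) := by positivity
    obtain ⟨q, hq1, hq2⟩ := exists_rat_btwn
      (show A ξ w - 1 / (2 * ((k ξ : ℝ) + 1)) < A ξ w by linarith)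
    refine ⟨q, ?_⟩
    rw [abs_lt]
    constructor <;> linarith
  choose q hq using hq
  have : Countable W := hW.to_subtype
  let key : D → ℕ × Finset (W × ℚ) := fun ξ =>
    (k ξ, (G ξ).attach.image fun w => (⟨w.1, hGW ξ w.2⟩, q ξ w.1))
  have hninj : ¬ Function.Injective key := fun h => hunc h.countable
  rw [Function.Injective] at hninj
  push Not at hninj
  obtain ⟨ξ, η, hkey, hne⟩ := hninj
  have hk1 : k ξ = k η := congrArg Prod.fst hkey
  have hk2 : (G ξ).attach.image (fun w => ((⟨w.1, hGW ξ w.2⟩ : W), q ξ w.1)) =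
      (G η).attach.image (fun w => ((⟨w.1, hGW η w.2⟩ : W), q η w.1)) := congrArg Prod.snd hkey
  refine hG ξ (Phi (Y ξ η)) (fun w hw => ?_) (subset_closure ⟨ξ, η, hne, rfl⟩)
  rw [hdiff]
  have h1 : ((⟨w, hGW ξ hw⟩ : W), q ξ w) ∈
      (G ξ).attach.image (fun w => ((⟨w.1, hGW ξ w.2⟩ : W), q ξ w.1)) :=
    Finset.mem_image.2 ⟨⟨w, hw⟩, Finset.mem_attach _ _, rfl⟩
  rw [hk2] at h1
  obtain ⟨w', -, hw'⟩ := Finset.mem_image.1 h1
  have h2 : w'.1 = w := congrArg (fun p : W × ℚ => p.1.1) hw'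
  have h3 : q η w'.1 = q ξ w := congrArg (fun p : W × ℚ => p.2) hw'
  rw [h2] at h3
  have h4 := hq ξ w
  have h5 := hq η w
  rw [h3, ← hk1] at h5
  have h6 : |A η w - A ξ w| < 1 / ((k ξ : ℝ) + 1) := by
    have h7 : 1 / ((k ξ : ℝ) + 1) = 1 / (2 * ((k ξ : ℝ) + 1)) + 1 / (2 * ((k ξ : ℝ) + 1)) := by
      field_simp
      norm_num
    rw [h7]
    rw [abs_lt] at h4 h5 ⊢
    constructor <;> linarith
  exact h6.trans (hk ξ)

end

end Pool.Agent.U19.LPM
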