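import Mathlib
import Pool.Agent.U19.LPM.Spread
import Pool.Agent.R594.Lp.Clopen

/-!
# Iterated function spaces
-/

set_option autoImplicit false

open Set Topology Cardinal TopologicalSpace

namespace Pool.Agent.U19.LPM

open Pool.Agent.Results.MP_f6eb07_gt.PowersMA
open Pool.Agent.R594.Lp (Cp sepCover_of_countable perfect_of_covers)
open Pool.Agent.Helper47.LP (Lp)

universe u

/-- Velichko, Zenor: if all finite powers of `Z` are hereditarily separable, then all finite powers
of `C_p(Z)` are hereditarily Lindelöf. -/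
theorem hlin_Cp {Z : Type u} [TopologicalSpace Z]
    (hZ : ∀ n : ℕ, HereditarilySeparable (Fin n → Z)) (k : ℕ) :
    HereditarilyLindelof (Fin k → Cp Z) := by
  classical
  intro 𝒪 h𝒪
  let S : (p : Σ n : ℕ, Fin n → Fin k × ℚ × ℚ) → Set (Fin p.1 → Z) := fun p =>
    {x | ∃ O ∈ 𝒪, ∀ G : Fin k → Cp Z, x ∈ Box p.2 G → G ∈ O}
  choose T hTS hT hTd using fun p => hZ p.1 (S p)
  have h1 : ∀ p, ∀ x : T p, ∃ O ∈ 𝒪, ∀ G : Fin k → Cp Z, x.1 ∈ Box p.2 G → G ∈ O :=
    fun p x => hTS p x.2
  choose O hO hOG using h1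
  refine ⟨⋃ p, range (O p), ?_, ?_, ?_⟩
  · apply iUnion_subset
    rintro p _ ⟨x, rfl⟩
    exact hO p x
  · refine countable_iUnion fun p => ?_
    have : Countable (T p) := (hT p).to_subtype
    exact countable_range _
  · apply Subset.antisymm
    · apply sUnion_subset_sUnion
      apply iUnion_subset
      rintro p _ ⟨x, rfl⟩
      exact hO p x
    · rintro G ⟨O', hO', hG⟩
      obtain ⟨n, c, x, hx, hxG⟩ := exists_box (h𝒪 O' hO') hG
      have hxS : x ∈ S ⟨n, c⟩ := ⟨O', hO', hxG⟩
      obtain ⟨x', hx'1, hx'2⟩ := mem_closure_iff.1 (hTd ⟨n, c⟩ hxS) (Box c G) (isOpen_box c G) hx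
      exact ⟨O ⟨n, c⟩ ⟨x', hx'2⟩, mem_iUnion.2 ⟨⟨n, c⟩, mem_range_self _⟩, hOG _ _ G hx'1⟩

theorem hlin_image {A B : Type u} [TopologicalSpace A] [TopologicalSpace B]
    (h : HereditarilyLindelof A) {g : A → B} (hg : Continuous g) (hs : Function.Surjective g) :
    HereditarilyLindelof B := by
  intro 𝒪 h𝒪
  obtain ⟨𝒞, h𝒞, hc, hun⟩ := h ((fun O => g ⁻¹' O) '' 𝒪)
    (by rintro _ ⟨O, hO, rfl⟩; exact (h𝒪 O hO).preimage hg)
  have h𝒞' : ∀ C, C ∈ 𝒞 → ∃ O, O ∈ 𝒪 ∧ g ⁻¹' O = C := fun C hC => h𝒞 hC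
  choose! φ hφ hφ' using h𝒞'
  refine ⟨φ '' 𝒞, by rintro _ ⟨C, hC, rfl⟩; exact hφ C hC, hc.image _, ?_⟩
  apply Subset.antisymm
  · apply sUnion_subset_sUnion
    rintro _ ⟨C, hC, rfl⟩
    exact hφ C hC
  · rintro y ⟨O, hO, hyO⟩
    obtain ⟨x, rfl⟩ := hs y
    have h1 : x ∈ ⋃₀ 𝒞 := by
      rw [hun]
      exact ⟨g ⁻¹' O, ⟨O, hO, rfl⟩, hyO⟩
    obtain ⟨C, hC, hxC⟩ := h1
    refine ⟨φ C, ⟨C, hC, rfl⟩, ?_⟩
    rw [← hφ' C hC] at hxC
    exact hxC

theorem hsep_image {A B : Type u} [TopologicalSpace A] [TopologicalSpace B]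
    (h : HereditarilySeparable A) {g : A → B} (hg : Continuous g) (hs : Function.Surjective g) :
    HereditarilySeparable B := by
  intro S
  obtain ⟨D, hDS, hD, hSD⟩ := h (g ⁻¹' S)
  refine ⟨g '' D, ?_, hD.image _, ?_⟩
  · rintro _ ⟨x, hx, rfl⟩
    exact hDS hx
  · intro y hy
    obtain ⟨x, rfl⟩ := hs y
    exact image_closure_subset_closure_image hg (mem_image_of_mem g (hSD hy))

theorem surj_eval {Y : Type u} : Function.Surjective (fun w : Fin 1 → Y => w 0) :=
  fun y => ⟨fun _ => y, rfl⟩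

theorem hlin_one {Y : Type u} [TopologicalSpace Y] (h : HereditarilyLindelof (Fin 1 → Y)) :
    HereditarilyLindelof Y := hlin_image h (continuous_apply 0) surj_eval

theorem hsep_one {Y : Type u} [TopologicalSpace Y] (h : HereditarilySeparable (Fin 1 → Y)) :
    HereditarilySeparable Y := hsep_image h (continuous_apply 0) surj_eval

/-- regular hereditarily Lindelöf spaces are perfectly normal -/
theorem perfectlyNormal_of_hlin {Y : Type u} [TopologicalSpace Y] [RegularSpace Y]
    (h : HereditarilyLindelof Y) : PerfectlyNormalSpace Y := by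
  have hz : NormalSpace Y ∧ ∀ s : Set Y, IsClosed s → IsGδ s := by
    refine perfect_of_covers fun F hF => ?_
    obtain ⟨𝒞, h𝒞, hc, hun⟩ := h {U | IsOpen U ∧ Disjoint (closure U) F} (fun U hU => hU.1)
    refine sepCover_of_countable 𝒞 hc (fun U hU => h𝒞 hU) ?_
    rw [hun]
    intro x hx
    obtain ⟨t, ht, htc, htF⟩ := exists_mem_nhds_isClosed_subset (hF.isOpen_compl.mem_nhds hx)
    refine ⟨interior t, ⟨isOpen_interior, ?_⟩, mem_interior_iff_mem_nhds.2 ht⟩
    rw [Set.disjoint_left]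
    intro y hy hyF
    exact htF (closure_minimal interior_subset htc hy) hyF
  have := hz.1
  exact ⟨hz.2⟩

section

variable {X : Type} [TopologicalSpace X] [T35Space X]

theorem spread_fintype_of
    (hs : ∀ (n : ℕ) (D : Set (Fin n → X)), DiscreteTopology D → D.Countable)
    (κ : Type) [Fintype κ] (D : Set (κ → X)) (hD : DiscreteTopology D) : D.Countable := by
  have h1 : ∀ d : D, ∃ O : Set (κ → X), IsOpen O ∧ d.1 ∈ O ∧ ∀ e : D, e.1 ∈ O → e = d :=
    fun d => exists_isolating hD d
  choose O hO hdO hOe using h1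
  let e := Fintype.equivFin κ
  have hcont : Continuous fun w : Fin (Fintype.card κ) → X => fun i : κ => w (e i) :=
    continuous_pi fun i => continuous_apply (e i)
  have h2 : Countable D := no_unc_discrete (hs (Fintype.card κ))
    (fun d : D => fun i => d.1 (e.symm i))
    (fun d => (fun w : Fin (Fintype.card κ) → X => fun i : κ => w (e i)) ⁻¹' O d)
    (fun d => (hO d).preimage hcont)
    (fun d => by
      show (fun i : κ => d.1 (e.symm (e i))) ∈ O d
      simpa using hdO d)
    (fun d d' hd => hOe d d' (by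
      have h3 : (fun i : κ => d'.1 (e.symm (e i))) ∈ O d := hd
      simpa using h3))
  exact Set.countable_coe_iff.1 h2

/-- Under Martin's axiom for `ℵ₁` dense sets, perfect normality of `L_p(X)` gives that all finite
powers of `X` are hereditarily Lindelöf and hereditarily separable. -/
theorem hlin_pow_lp (hMA : MartinAxiomAlephOne) (hL : PerfectlyNormalSpace (Lp X)) (n : ℕ) :
    HereditarilyLindelof (Fin n → X) ∧ HereditarilySeparable (Fin n → X) := by
  have h2 : ∀ D : Set {f : (Fin n → X) → ℝ // Continuous f}, DiscreteTopology D →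
      D.Countable :=
    fun D hD => spread_Cp (spread_pow_pow (spread_fintype_of (spread_of_lp hL))) D hD
  exact ⟨hlin hMA _ h2, hsep hMA _ h2⟩

/-- perfect normality of `L_p(X)` gives that closed sets of finite powers of `X` are `G_δ` -/
theorem gdelta_pow (hL : PerfectlyNormalSpace (Lp X)) (n : ℕ) (s : Set (Fin n → X))
    (hs : IsClosed s) : IsGδ s := by
  choose N hN hyN hNs using fun y : (sᶜ : Set (Fin n → X)) => exists_nhd y.1 hs.isOpen_compl y.2
  have h1 : IsClosed (⋃ y, N y)ᶜ := (isOpen_iUnion hN).isClosed_compl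
  have h2 : s = Phi ⁻¹' (⋃ y, N y)ᶜ := by
    ext z
    constructor
    · intro hz hz'
      obtain ⟨y, hy⟩ := mem_iUnion.1 hz'
      exact hNs y z hy hz
    · intro hz
      by_contra hzs
      exact hz (mem_iUnion.2 ⟨⟨z, hzs⟩, hyN ⟨z, hzs⟩⟩)
  rw [h2]
  exact (PerfectlyNormalSpace.closed_gdelta h1).preimage Phi_cont

/-- the case of Lindelöf finite powers -/
theorem hlin_pow_lp_of_lindelof (hL : PerfectlyNormalSpace (Lp X))
    (hX : ∀ n : ℕ, LindelofSpace (Fin n → X)) (n : ℕ) : HereditarilyLindelof (Fin n → X) := by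
  have := hX n
  exact hlin_of_perfect (gdelta_pow hL n)

end

/-- `L_p(X)` inherits perfect normality from `C_p(C_p(X))` -/
theorem lp_of_cpcp {X : Type} [TopologicalSpace X]
    (h : PerfectlyNormalSpace {g : {f : X → ℝ // Continuous f} → ℝ // Continuous g}) :
    PerfectlyNormalSpace (Lp X) := by
  have hc : ∀ ψ : Lp X, Continuous ψ.1 := by
    rintro ⟨ψ, hψ⟩
    induction hψ using Submodule.span_induction with
    | mem ψ h =>
      obtain ⟨x, rfl⟩ := h
      exact (continuous_apply x).comp continuous_subtype_val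
    | zero => exact continuous_const
    | add a b _ _ ha hb => exact ha.add hb
    | smul c a _ ha => exact ha.const_smul c
  let e : Lp X → {g : {f : X → ℝ // Continuous f} → ℝ // Continuous g} := fun ψ => ⟨ψ.1, hc ψ⟩
  have he : IsEmbedding e := by
    have h1 : IsEmbedding (Subtype.val ∘ e) := IsEmbedding.subtypeVal
    exact IsEmbedding.of_comp (continuous_subtype_val.subtype_mk _) continuous_subtype_val h1
  have hcn : CompletelyNormalSpace (Lp X) := he.completelyNormalSpace
  have hn : NormalSpace (Lp X) := inferInstance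
  refine ⟨fun s hs => ?_⟩
  obtain ⟨t, ht, rfl⟩ := he.isInducing.isClosed_iff.1 hs
  exact (PerfectlyNormalSpace.closed_gdelta ht).preimage he.continuous

end Pool.Agent.U19.LPM
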